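import Pool.Agent.LibBruck.Nil
import Pool.Agent.LibMau45.Ext
import Pool.Agent.LibMau45.Mat
import Pool.Agent.LibMau45.Mautner

/-!
# Weak fixed point property for cocompact extensions, linear groups and a large class of semigroups

If a real or complex Banach space `E` has the weak fixed point property, then it has the weak fixed
point property for every semitopological semigroup in the class `Tame` below, and the set of common
fixed points is a nonexpansive retract. The class contains all compact left reversible semigroups,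
is closed under cocompact extensions, and contains `SL n F` and `GL n F` for all nondiscrete
topological fields `F`.
-/

open Set Topology

namespace Pool.Agent.Results.MP_0633b3_an.CocompactExtensions

universe u v w

/-- The set `K` is weakly compact. -/
def WeaklyCompact (𝕜 : Type w) (E : Type v) [RCLike 𝕜] [NormedAddCommGroup E] [NormedSpace 𝕜 E]
    (K : Set E) : Prop := IsCompact (toWeakSpace 𝕜 E '' K)

/-- Weak fpp: every nonexpansive self-map of a nonempty weakly compact convex set has a fixed
point. -/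
def WeakFPP (𝕜 : Type w) (E : Type v) [RCLike 𝕜] [NormedAddCommGroup E] [NormedSpace 𝕜 E]
    [NormedSpace ℝ E] : Prop :=
  ∀ K : Set E, K.Nonempty → Convex ℝ K → WeaklyCompact 𝕜 E K → ∀ T : K → K,
    (∀ x y : K, ‖(T x : E) - T y‖ ≤ ‖(x : E) - y‖) → ∃ x : K, T x = x

/-- Separately continuous nonexpansive actions of `S` on `K` (continuity in the second variable is
automatic). -/
structure NonexpansiveAction (S : Type u) [Semigroup S] [TopologicalSpace S] {E : Type v}
    [NormedAddCommGroup E] (K : Set E) where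
  /-- the action -/
  act : S → K → K
  mul : ∀ s t x, act (s * t) x = act s (act t x)
  nonexpansive : ∀ s x y, ‖(act s x : E) - act s y‖ ≤ ‖(x : E) - y‖
  cont : ∀ x, Continuous fun s => act s x

/-- Elementary amenable groups: the smallest class of groups containing the finite and the abelian
groups and closed under extensions, directed unions, subgroups, quotients and isomorphisms. -/
inductive ElemAmenable : ∀ (G : Type u) [Group G], Prop
  | finite (G : Type u) [Group G] (h : Finite G) : ElemAmenable G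
  | abelian (G : Type u) [Group G] (h : ∀ a b : G, a * b = b * a) : ElemAmenable G
  | extension (G : Type u) [Group G] (N : Subgroup G) [N.Normal] (hN : ElemAmenable N)
      (hQ : ElemAmenable (G ⧸ N)) : ElemAmenable G
  | union (G : Type u) [Group G] (ι : Type u) [Nonempty ι] (H : ι → Subgroup G)
      (hdir : Directed (· ≤ ·) H) (hcov : ∀ g : G, ∃ i, g ∈ H i)
      (hH : ∀ i, ElemAmenable (H i)) : ElemAmenable G
  | subgroup (G : Type u) [Group G] (H : Subgroup G) (hG : ElemAmenable G) : ElemAmenable H
  | quotient (G : Type u) [Group G] (N : Subgroup G) [N.Normal] (hG : ElemAmenable G) :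
      ElemAmenable (G ⧸ N)
  | iso (G H : Type u) [Group G] [Group H] (e : G ≃* H) (hG : ElemAmenable G) : ElemAmenable H

/-- Every finitely generated subgroup of `G` has a nilpotent normal subgroup of finite index. -/
def LocallyVirtuallyNilpotent (G : Type u) [Group G] : Prop :=
  ∀ F : Finset G, ∃ N : Subgroup (Subgroup.closure (F : Set G)), N.Normal ∧
    Group.IsNilpotent N ∧ N.FiniteIndex

/-- Left reversibility: the closures of `aS` and `bS` meet. -/
def LeftReversible (S : Type u) [Semigroup S] [TopologicalSpace S] : Prop :=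
  ∀ a b : S, (closure (range fun s => a * s) ∩ closure (range fun s => b * s)).Nonempty

/-- The set `{a u : u ∈ T}`. -/
def coset {S : Type u} [Semigroup S] (a : S) (T : Set S) : Set S := {r | ∃ u ∈ T, r = a * u}

/-- Bounded continuous pseudometrics on `S`, contracted by left multiplications, which do not see
right multiplications by elements of `T`. -/
structure Pseudo {S : Type u} [Semigroup S] [TopologicalSpace S] (T : Set S) (ρ : S → S → ℝ) :
    Prop where
  self : ∀ s, ρ s s = 0
  symm : ∀ s t, ρ s t = ρ t s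
  triangle : ∀ r s t, ρ r t ≤ ρ r s + ρ s t
  cont : Continuous fun p : S × S => ρ p.1 p.2
  bdd : ∃ C, ∀ s t, ρ s t ≤ C
  left : ∀ a s t, ρ (a * s) (a * t) ≤ ρ s t
  right : ∀ s, ∀ t ∈ T, ρ (s * t) s = 0

/-- The class of semigroups of the theorem. -/
inductive Tame : ∀ (S : Type u) [Semigroup S] [TopologicalSpace S], Prop
  /-- commutative semigroups -/
  | commutative (S : Type u) [Semigroup S] [TopologicalSpace S] (h : ∀ a b : S, a * b = b * a) :
      Tame S
  /-- elementary amenable groups, with any topology -/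
  | elemAmenable (G : Type u) [Group G] [TopologicalSpace G] (h : ElemAmenable G) : Tame G
  /-- subsemigroups of locally virtually nilpotent groups, with any topology -/
  | nilpotent (G : Type u) [Group G] (h : LocallyVirtuallyNilpotent G) (S : Type u) [Semigroup S]
      [TopologicalSpace S] (φ : S →ₙ* G) (hφ : Function.Injective φ) : Tame S
  /-- continuous homomorphic images that are dense -/
  | image (S S' : Type u) [Semigroup S] [TopologicalSpace S] [Semigroup S'] [TopologicalSpace S']
      (hS : Tame S) (φ : S → S') (hmul : ∀ a b, φ (a * b) = φ a * φ b) (hcont : Continuous φ)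
      (hdense : DenseRange φ) : Tame S'
  /-- directed unions of subsemigroups, dense in `S` -/
  | union (S : Type u) [Semigroup S] [TopologicalSpace S] (ι : Type u) [Nonempty ι]
      (T : ι → Subsemigroup S) (hT : ∀ i, Tame (T i)) (hdir : Directed (· ≤ ·) T)
      (hdense : Dense (⋃ i, (T i : Set S))) : Tame S
  /-- extensions: `T` is normal in the sense of `hnorm` and `Q` is the quotient -/
  | extension (S Q : Type u) [Semigroup S] [TopologicalSpace S] [Semigroup Q] [TopologicalSpace Q]
      (T : Subsemigroup S) (hT : Tame T) (hQ : Tame Q)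
      (hnorm : ∀ s : S, ∀ t ∈ T, (closure (coset (t * s) T) ∩ closure (coset s T)).Nonempty)
      (φ : S → Q) (hmul : ∀ a b, φ (a * b) = φ a * φ b) (hquot : IsQuotientMap φ)
      (hker : ∀ s s', φ s = φ s' → (closure (coset s T) ∩ closure (coset s' T)).Nonempty) : Tame S
  /-- subsemigroups `T` such that the closures of `s T` and `T` meet for all `s` -/
  | absorb (S : Type u) [Semigroup S] [TopologicalSpace S] (T : Subsemigroup S) (hT : Tame T)
      (habs : ∀ s : S, (closure (coset s T) ∩ closure (T : Set S)).Nonempty) : Tame S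
  /-- left reversible semigroups in which `T` is coprecompact -/
  | coprecompact (S : Type u) [Semigroup S] [TopologicalSpace S] (T : Subsemigroup S)
      (hT : Tame T) (hrev : LeftReversible S)
      (h : ∀ ρ : S → S → ℝ, Pseudo (T : Set S) ρ → ∀ ε : ℝ, 0 < ε →
        ∃ F : Finset S, ∀ s, ∃ t ∈ F, ρ s t < ε) : Tame S
  /-- dense subgroups of topological groups -/
  | denseSubgroup (G : Type u) [Group G] [TopologicalSpace G] [IsTopologicalGroup G]
      (D : Subgroup G) (hD : Dense (D : Set G)) (hG : Tame G) : Tame D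

theorem elemAmenable_ea : ∀ (G : Type u) [Group G], ElemAmenable G → Bruck.EA G := by
  intro G _ h
  induction h with
  | finite G h => exact Bruck.EA.finite G h
  | abelian G h => exact Bruck.EA.comm G h
  | extension G N _ _ ihN ihQ => exact Bruck.EA.ext G N ihN ihQ
  | union G ι H hdir hcov _ ih => exact Bruck.EA.union G ι H hdir hcov ih
  | subgroup G H _ ih => exact Bruck.EA.subgroup G H ih
  | quotient G N _ ih => exact Bruck.EA.quotient G N ih
  | iso G H e _ ih => exact Bruck.EA.iso G H e ih

theorem tame_good {E : Type v} [NormedAddCommGroup E] [NormedSpace ℝ E] [CompleteSpace E]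
    (hE : Bruck.WFPP E) : ∀ (S : Type u) [Semigroup S] [TopologicalSpace S], Tame S →
      Bruck.Good E S := by
  intro S _ _ h
  induction h with
  | commutative S h => exact Bruck.good_comm hE h
  | elemAmenable G h => exact Bruck.good_of_adm hE G (Bruck.Adm.ea G (elemAmenable_ea G h))
  | nilpotent G h S φ hφ => exact Bruck.good_of_adm hE S (Bruck.SG.locally h S φ hφ).1
  | image S S' _ φ hmul hcont hdense ih => exact ih.image φ hmul hcont hdense
  | union S ι T _ hdir hdense ih => exact Bruck.Good.union hE T ih hdir hdense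
  | extension S Q T _ _ hnorm φ hmul hquot hker ihT ihQ =>
    exact Mau45.good_ext T ihT hnorm ihQ φ hmul hquot hker
  | absorb S T _ habs ih => exact Mau45.good_absorb T ih habs
  | coprecompact S T _ hrev h ih =>
    exact Mau45.good_coprecompact T ih hrev fun ρ hρ =>
      h ρ ⟨hρ.self, hρ.symm, hρ.triangle, hρ.cont, hρ.bdd, hρ.left, hρ.right⟩
  | denseSubgroup G D hD _ ih => exact Mau45.good_dense D hD ih

/-- Cocompact extensions. -/
theorem tame_cocompact (S : Type u) [Semigroup S] [TopologicalSpace S] (hrev : LeftReversible S)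
    (T : Subsemigroup S) (hT : Tame T) (C : Set S) (hC : IsCompact C)
    (hCT : Dense {s : S | s ∈ C ∨ ∃ c ∈ C, ∃ t ∈ T, s = c * t}) : Tame S := by
  refine Tame.coprecompact S T hT hrev fun ρ hρ ε hε => ?_
  have hc1 : ∀ t : S, Continuous fun s => ρ s t := fun t =>
    hρ.cont.comp (continuous_id.prodMk continuous_const)
  obtain ⟨F, hFC, hF⟩ := hC.elim_nhds_subcover (fun c => {s | ρ s c < ε / 2}) (by
    intro c hc
    apply (hc1 c).continuousAt.eventually_lt_const
    change ρ c c < ε / 2
    rw [hρ.self]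
    linarith)
  refine ⟨F, fun s => ?_⟩
  have hopen : IsOpen {r : S | ρ r s < ε / 2} := isOpen_lt (hc1 s) continuous_const
  obtain ⟨r, hr, hrC⟩ := hCT.inter_open_nonempty _ hopen ⟨s, by
    change ρ s s < ε / 2
    rw [hρ.self]
    linarith⟩
  have hr : ρ r s < ε / 2 := hr
  obtain ⟨c, hc, hrc⟩ : ∃ c ∈ C, ρ r c = 0 := by
    rcases hrC with hrC | ⟨c, hc, t, ht, rfl⟩
    · exact ⟨r, hrC, hρ.self r⟩
    · exact ⟨c, hc, hρ.right c t ht⟩
  obtain ⟨u, hu, hcu⟩ := mem_iUnion₂.1 (hF hc)
  have hcu : ρ c u < ε / 2 := hcu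
  refine ⟨u, hu, ?_⟩
  have h1 := hρ.triangle s r u
  have h2 := hρ.triangle r c u
  rw [hρ.symm s r] at h1
  linarith

lemma leftReversible_group (G : Type u) [Group G] [TopologicalSpace G] : LeftReversible G :=
  fun a b => ⟨1, subset_closure ⟨a⁻¹, mul_inv_cancel a⟩, subset_closure ⟨b⁻¹, mul_inv_cancel b⟩⟩

theorem tame_SL (F : Type u) [Field F] [TopologicalSpace F] [IsTopologicalRing F]
    (hF : (𝓝[≠] (0 : F)).NeBot) (n : Type u) [Fintype n] [DecidableEq n] :
    Tame (Matrix.SpecialLinearGroup n F) := by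
  refine Tame.coprecompact _ (Mau45.diagSL F n)
    (Tame.commutative _ (Mau45.diagSL_comm)) (leftReversible_group _) fun ρ hρ ε hε => ?_
  refine ⟨{1}, fun s => ⟨1, Finset.mem_singleton_self _, ?_⟩⟩
  rw [Mau45.zero_SL hF ⟨hρ.self, hρ.symm, hρ.triangle, hρ.cont, hρ.bdd, hρ.left, hρ.right⟩ s]
  exact hε

theorem tame_GL (F : Type u) [Field F] [TopologicalSpace F] [IsTopologicalRing F]
    (hF : (𝓝[≠] (0 : F)).NeBot) (n : Type u) [Fintype n] [DecidableEq n] :
    Tame (Matrix.GeneralLinearGroup n F) := by
  refine Tame.coprecompact _ (Mau45.diagGL F n)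
    (Tame.commutative _ (Mau45.diagGL_comm)) (leftReversible_group _) fun ρ hρ ε hε => ?_
  refine ⟨{1}, fun s => ⟨1, Finset.mem_singleton_self _, ?_⟩⟩
  rw [Mau45.zero_GL hF ⟨hρ.self, hρ.symm, hρ.triangle, hρ.cont, hρ.bdd, hρ.left, hρ.right⟩ s]
  exact hε

/-- The Mautner criterion: the elements of `T` and the elements contracted to `1` by conjugations
from `T` topologically generate `G`. -/
theorem tame_mautner (G : Type u) [Group G] [TopologicalSpace G] (T : Subsemigroup G)
    (hT : Tame T) (hgen : Dense (Subgroup.closure {g : G | g ∈ T ∨ (1 : G) ∈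
      closure {r : G | ∃ t ∈ T, r = t * g * t⁻¹}} : Set G)) : Tame G := by
  refine Tame.coprecompact _ T hT (leftReversible_group _) fun ρ hρ ε hε => ?_
  refine ⟨{1}, fun s => ⟨1, Finset.mem_singleton_self _, ?_⟩⟩
  rw [Mau45.zero_mautner (T := (T : Set G))
    ⟨hρ.self, hρ.symm, hρ.triangle, hρ.cont, hρ.bdd, hρ.left, hρ.right⟩ hgen s]
  exact hε

lemma weaklyCompact_iff {𝕜 : Type w} {E : Type v} [RCLike 𝕜] [NormedAddCommGroup E]
    [NormedSpace ℝ E] [NormedSpace 𝕜 E] [IsScalarTower ℝ 𝕜 E] (K : Set E) :
    WeaklyCompact 𝕜 E K ↔ LRFix.WeaklyCompact K := by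
  have hto : Continuous fun x : WeakSpace 𝕜 E => toWeakSpace ℝ E ((toWeakSpace 𝕜 E).symm x) := by
    apply WeakBilin.continuous_of_continuous_eval
    intro f
    have h1 : Continuous fun x : WeakSpace 𝕜 E =>
        RCLike.re ((StrongDual.extendRCLike (𝕜 := 𝕜) f) ((toWeakSpace 𝕜 E).symm x)) :=
      RCLike.continuous_re.comp (WeakBilin.eval_continuous (topDualPairing 𝕜 E).flip
        (StrongDual.extendRCLike (𝕜 := 𝕜) f))
    refine h1.congr fun x => ?_
    rw [StrongDual.re_extendRCLike_apply]
    rfl
  have hfrom : Continuous fun x : WeakSpace ℝ E => toWeakSpace 𝕜 E ((toWeakSpace ℝ E).symm x) := by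
    apply WeakBilin.continuous_of_continuous_eval
    intro F
    have h1 : Continuous fun x : WeakSpace ℝ E =>
        RCLike.re (F ((toWeakSpace ℝ E).symm x)) :=
      WeakBilin.eval_continuous (topDualPairing ℝ E).flip
        (RCLike.reCLM.comp (F.restrictScalars ℝ))
    have h2 : Continuous fun x : WeakSpace ℝ E =>
        RCLike.im (F ((toWeakSpace ℝ E).symm x)) :=
      WeakBilin.eval_continuous (topDualPairing ℝ E).flip
        (RCLike.imCLM.comp (F.restrictScalars ℝ))
    have h3 : Continuous fun x : WeakSpace ℝ E =>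
        ((RCLike.re (F ((toWeakSpace ℝ E).symm x)) : ℝ) : 𝕜) +
          ((RCLike.im (F ((toWeakSpace ℝ E).symm x)) : ℝ) : 𝕜) * RCLike.I :=
      (RCLike.continuous_ofReal.comp h1).add
        ((RCLike.continuous_ofReal.comp h2).mul continuous_const)
    refine h3.congr fun x => ?_
    rw [RCLike.re_add_im]
    rfl
  constructor
  · intro h
    have h1 := h.image hto
    rw [image_image] at h1
    simpa [LRFix.WeaklyCompact] using h1
  · intro h
    have h1 := h.image hfrom
    rw [image_image] at h1
    simpa [WeaklyCompact] using h1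

theorem result : (∀ (𝕜 : Type w) [RCLike 𝕜] (E : Type v) [NormedAddCommGroup E] [NormedSpace ℝ E]
    [NormedSpace 𝕜 E] [IsScalarTower ℝ 𝕜 E] [CompleteSpace E], WeakFPP 𝕜 E →
    ∀ (S : Type u) [Semigroup S] [TopologicalSpace S], Tame S →
    ∀ K : Set E, K.Nonempty → Convex ℝ K → WeaklyCompact 𝕜 E K →
    ∀ A : NonexpansiveAction S K, ∃ r : K → K, (∀ x y : K, ‖(r x : E) - r y‖ ≤ ‖(x : E) - y‖) ∧
      (∀ s x, A.act s (r x) = r x) ∧ ∀ x, (∀ s, A.act s x = x) → r x = x) ∧
    (∀ (S : Type u) [Semigroup S] [TopologicalSpace S], LeftReversible S →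
      ∀ T : Subsemigroup S, Tame T → ∀ C : Set S, IsCompact C →
        Dense {s : S | s ∈ C ∨ ∃ c ∈ C, ∃ t ∈ T, s = c * t} → Tame S) ∧
    (∀ (G : Type u) [Group G] [TopologicalSpace G] (T : Subsemigroup G), Tame T →
      Dense (Subgroup.closure {g : G | g ∈ T ∨ (1 : G) ∈
        closure {r : G | ∃ t ∈ T, r = t * g * t⁻¹}} : Set G) → Tame G) ∧
    (∀ (F : Type u) [Field F] [TopologicalSpace F] [IsTopologicalRing F], (𝓝[≠] (0 : F)).NeBot →
      ∀ (n : Type u) [Fintype n] [DecidableEq n],
        Tame (Matrix.SpecialLinearGroup n F) ∧ Tame (Matrix.GeneralLinearGroup n F)) := by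
  classical
  refine ⟨?_, fun S _ _ hrev T hT C hC hCT => tame_cocompact S hrev T hT C hC hCT,
    fun G _ _ T hT hgen => tame_mautner G T hT hgen,
    fun F _ _ _ hF n _ _ => ⟨tame_SL F hF n, tame_GL F hF n⟩⟩
  intro 𝕜 _ E _ _ _ _ _ hE S _ _ hS K hne hconv hK A
  have hE' : Bruck.WFPP E := by
    intro K hK hne hconv f hf
    obtain ⟨x, hx⟩ := hE K hne hconv ((weaklyCompact_iff K).2 hK)
      (fun x => ⟨f x, hf.maps x x.2⟩) fun x y => hf.ne x x.2 y y.2
    exact ⟨x, x.2, congrArg Subtype.val hx⟩
  have hG : Bruck.Good E S := tame_good hE' S hS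
  let f : S → E → E := fun s x => if hx : x ∈ K then (A.act s ⟨x, hx⟩ : E) else x
  have hf : ∀ s (x : K), f s x = A.act s x := by
    intro s x
    simp only [f, dif_pos x.2]
  have hact : Bruck.Action K f := by
    refine ⟨fun s => ⟨?_, ?_⟩, ?_, ?_⟩
    · intro x hx
      rw [hf s ⟨x, hx⟩]
      exact (A.act s ⟨x, hx⟩).2
    · intro x hx y hy
      rw [hf s ⟨x, hx⟩, hf s ⟨y, hy⟩]
      exact A.nonexpansive s ⟨x, hx⟩ ⟨y, hy⟩
    · intro s t x hx
      rw [hf (s * t) ⟨x, hx⟩, hf t ⟨x, hx⟩, hf s, A.mul]
    · intro x hx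
      have h1 : (fun s => f s x) = fun s => (A.act s ⟨x, hx⟩ : E) := by
        funext s
        exact hf s ⟨x, hx⟩
      rw [h1]
      exact continuous_subtype_val.comp (A.cont ⟨x, hx⟩)
  obtain ⟨r, hr⟩ := hG.retr ((weaklyCompact_iff K).1 hK) hconv hact
  refine ⟨fun x => ⟨r x, (hr.mem x x.2).1⟩, ?_, ?_, ?_⟩
  · intro x y
    exact hr.toNE.ne x x.2 y y.2
  · intro s x
    apply Subtype.ext
    have h1 := (hr.mem x x.2).2 s
    rw [← hf s]
    exact h1
  · intro x hx
    apply Subtype.ext
    refine hr.fix x ⟨x.2, fun s => ?_⟩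
    rw [hf s x, hx s]

end Pool.Agent.Results.MP_0633b3_an.CocompactExtensions
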