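import Pool.Agent.LibLRFix.Reduce
import Pool.Agent.LibLRFix.C0
import Pool.Agent.LibLRFix.GeoSym
import Pool.Agent.LibLRFix.Uncond
import Pool.Agent.LibLRFix.GeoCK

/-!
# Common fixed points for left reversible semigroups

Let `S` be a semigroup in which any two principal right ideals `aS`, `bS` meet. We show that
nonexpansive actions of `S` on weakly compact convex sets of `E` have common fixed points for
the main classes of spaces `E` which are known to have the weak fixed point property but lack
normal structure.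
-/

open Filter Topology Set
open scoped ZeroAtInfty

namespace Pool.Agent.Results.MP_0633b3_an.LeftReversibleClassicalSpaces

universe u v

open Pool.Agent.LRFix

/-- `E` has the weak fixed point property for `S`: every action of `S` by nonexpansive maps on a
nonempty weakly compact convex subset of `E` has a common fixed point. -/
def WeakFPPFor (E : Type u) [NormedAddCommGroup E] [NormedSpace ℝ E] (S : Type v)
    [Semigroup S] : Prop :=
  ∀ K : Set E, IsCompact (toWeakSpace ℝ E '' K) → K.Nonempty → Convex ℝ K →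
    ∀ act : S → K → K, (∀ s t x, act (s * t) x = act s (act t x)) →
      (∀ s x y, ‖(act s x : E) - act s y‖ ≤ ‖(x : E) - y‖) → ∃ x : K, ∀ s, act s x = x

/-- `E` has the weak fixed point property for all left reversible (discrete) semigroups: those
in which any two right ideals `aS` and `bS` meet. -/
def LeftReversibleFPP (E : Type u) [NormedAddCommGroup E] [NormedSpace ℝ E] : Prop :=
  ∀ (S : Type v) [Semigroup S], (∀ a b : S, ∃ c d : S, a * c = b * d) → WeakFPPFor E S

theorem main {E : Type u} [NormedAddCommGroup E] [NormedSpace ℝ E] {θ : ℝ} (hθ : θ < 1)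
    (h : CenterProp E θ) : LeftReversibleFPP.{u, v} E := by
  intro S _ hS K hK hne hconv act hmul hact
  exact fixed_of_centerProp' hθ h hS hK hne hconv act hmul hact

theorem result :
    -- (0) topological semigroups with closed principal right ideals
    (∀ (S : Type v) [Semigroup S] [TopologicalSpace S],
      (∀ a b : S, (closure (range fun s => a * s) ∩ closure (range fun s => b * s)).Nonempty) →
      (∀ a : S, IsClosed (range fun s => a * s)) → ∀ a b : S, ∃ c d : S, a * c = b * d) ∧
    -- (1) spaces with a small coefficient `R(a, E) < 1 + a`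
    (∀ (E : Type u) [NormedAddCommGroup E] [NormedSpace ℝ E] [CompleteSpace E] (t θ : ℝ),
      0 < t → t < 1 → θ < 1 → SmallCoeff E t θ → LeftReversibleFPP.{u, v} E) ∧
    -- (2) the spaces `c₀(Γ)`
    (∀ (Γ : Type u) [TopologicalSpace Γ] [DiscreteTopology Γ],
      LeftReversibleFPP.{u, v} C₀(Γ, ℝ)) ∧
    -- (3) spaces with a small two sided coefficient `RW(a, E) < 1 + a`
    (∀ (E : Type u) [NormedAddCommGroup E] [NormedSpace ℝ E] [CompleteSpace E] (t θ : ℝ),
      0 < t → t < 1 → θ < 1 → SymCoeff E t θ → LeftReversibleFPP.{u, v} E) ∧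
    -- (4) uniformly nonsquare spaces
    (∀ (E : Type u) [NormedAddCommGroup E] [NormedSpace ℝ E] [CompleteSpace E] (δ : ℝ),
      0 < δ → (∀ x y : E, ‖x‖ ≤ 1 → ‖y‖ ≤ 1 → min ‖x + y‖ ‖x - y‖ ≤ 2 - δ) →
        LeftReversibleFPP.{u, v} E) ∧
    -- (5) spaces with an unconditional basis of constant less than `(√33 - 3) / 2`
    (∀ (E : Type u) [NormedAddCommGroup E] [NormedSpace ℝ E] [CompleteSpace E] (β : Type u)
      (b : UnconditionalSchauderBasis β ℝ E) (lam : ℝ), lam < (√33 - 3) / 2 →
      (∀ A : Finset β, ‖ContinuousLinearMap.id ℝ E - (2 : ℝ) • b.proj A‖ ≤ lam) →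
        LeftReversibleFPP.{u, v} E) ∧
    -- (6) spaces with the unconditional metric compact approximation property
    (∀ (E : Type u) [NormedAddCommGroup E] [NormedSpace ℝ E] [CompleteSpace E],
      (∀ δ > 0, ∀ F : Finset E, ∃ P : E →L[ℝ] E, IsCompactOperator P ∧
        ‖ContinuousLinearMap.id ℝ E - (2 : ℝ) • P‖ ≤ 1 + δ ∧ ∀ x ∈ F, ‖P x - x‖ ≤ δ) →
        LeftReversibleFPP.{u, v} E) ∧
    -- (7) `C(X)` for `X` compact with an empty finite iterated derived set
    (∀ (X : Type u) [TopologicalSpace X] [CompactSpace X] [T2Space X] (n : ℕ),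
      derivedSet^[n] (univ : Set X) = ∅ → LeftReversibleFPP.{u, v} C(X, ℝ)) := by
  have h33 : (0 : ℝ) ≤ √33 := Real.sqrt_nonneg _
  have h33' : √33 * √33 = 33 := Real.mul_self_sqrt (by norm_num)
  have hlamb : ∀ lam : ℝ, 0 ≤ lam → lam < (√33 - 3) / 2 → (1 + lam) * (2 + lam) / 8 < 1 := by
    intro lam h0 h1
    nlinarith
  refine ⟨?_, ?_, ?_, ?_, ?_, ?_, ?_, ?_⟩
  · intro S _ _ h1 h2 a b
    obtain ⟨u, hua, hub⟩ := h1 a b
    rw [(h2 a).closure_eq] at hua
    rw [(h2 b).closure_eq] at hub
    obtain ⟨c, hc⟩ := hua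
    obtain ⟨d, hd⟩ := hub
    exact ⟨c, d, hc.trans hd.symm⟩
  · intro E _ _ _ t θ ht0 ht1 hθ h
    exact main hθ (centerProp_of_smallCoeff ht0 ht1 h)
  · intro Γ _ _
    exact main (θ := 1 / 2) (by norm_num)
      (centerProp_of_smallCoeff (t := 1 / 2) (by norm_num) (by norm_num) smallCoeff_c0)
  · intro E _ _ _ t θ ht0 ht1 hθ h
    exact main hθ (centerProp_of_symCoeff ht0 ht1 h)
  · intro E _ _ _ δ hδ h
    exact main (θ := 1 - δ / 2) (by linarith)
      (centerProp_of_symCoeff (t := 1 / 2) (by norm_num) (by norm_num) (symCoeff_of_nonsquare h))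
  · intro E _ _ _ β b lam hlam h
    have h0 : 0 ≤ lam := (norm_nonneg _).trans (h ∅)
    exact main (hlamb lam h0 hlam) (centerProp_of_uncondApprox (uncondApprox_of_basis b h))
  · intro E _ _ _ h
    have h5 : (5 : ℝ) < √33 := by
      rw [show (5 : ℝ) = √25 by rw [show (25 : ℝ) = 5 * 5 by norm_num]; simp]
      exact Real.sqrt_lt_sqrt (by norm_num) (by norm_num)
    refine main (hlamb ((1 + (√33 - 3) / 2) / 2) ?_ ?_)
      (centerProp_of_uncondApprox (uncondApprox_of_umap h ?_))
    · linarith
    · linarith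
    · linarith
  · intro X _ _ _ n hn
    have hn' : cb X (n + 1) = ∅ := by
      unfold cb
      rw [Function.iterate_succ_apply', hn]
      ext x
      simp [derivedSet, AccPt]
    refine main ?_ (centerProp_CK hn')
    rw [div_lt_one (by positivity)]
    linarith

end Pool.Agent.Results.MP_0633b3_an.LeftReversibleClassicalSpaces
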