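import Pool.Agent.LibRNP45.Isos
import Pool.Agent.LibBruck.Retract

/-!
# Groups of isometries of weakly compact convex sets

Let `E` be a Banach space with the Radon-Nikodym property (for instance a reflexive space), or a
subspace of `C(X, F)` with `X` a scattered compact space and `F` a strictly convex space (for
instance `c₀(Γ)`, or `C(X)` with `X` scattered). Every surjective isometry of a bounded convex subset
of `E` is affine. Consequently all surjective isometries of a nonempty weakly compact convex subset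
have a common fixed point, and every nonexpansive unital action of a group has a common fixed point.
-/

open Set Topology

namespace Pool.Agent.Results.MP_0633b3_an.RadonNikodymGroups

universe u v w x y

/-- The set `K` is weakly compact. -/
def WeaklyCompact (𝕜 : Type w) (E : Type v) [RCLike 𝕜] [NormedAddCommGroup E] [NormedSpace 𝕜 E]
    (K : Set E) : Prop := IsCompact (toWeakSpace 𝕜 E '' K)

/-- The Radon-Nikodym property in its geometric form: every nonempty bounded closed convex set has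
nonempty slices of arbitrarily small diameter. -/
def RNP (E : Type v) [NormedAddCommGroup E] [NormedSpace ℝ E] : Prop :=
  ∀ C : Set E, C.Nonempty → IsClosed C → Bornology.IsBounded C → Convex ℝ C →
    ∀ ε : ℝ, 0 < ε → ∃ (φ : E →L[ℝ] ℝ) (c : ℝ), (∃ x ∈ C, c < φ x) ∧
      ∀ x ∈ C, ∀ y ∈ C, c < φ x → c < φ y → ‖x - y‖ ≤ ε

/-- Scattered spaces: every nonempty subset has an isolated point. -/
def Scattered (X : Type x) [TopologicalSpace X] : Prop :=
  ∀ Y : Set X, Y.Nonempty → ∃ y ∈ Y, ∃ U : Set X, IsOpen U ∧ y ∈ U ∧ ∀ z ∈ U ∩ Y, z = y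

/-- The space `E` is linearly isometric to a subspace of the space `C(X, F)` of continuous functions
(with the supremum norm) from a scattered compact space `X` to a strictly convex real normed space
`F`. -/
def ScatteredType (E : Type v) [NormedAddCommGroup E] [NormedSpace ℝ E] : Prop :=
  ∃ (X : Type x) (_ : TopologicalSpace X) (_ : CompactSpace X) (F : Type y)
    (_ : NormedAddCommGroup F) (_ : NormedSpace ℝ F) (_ : StrictConvexSpace ℝ F),
    Scattered X ∧ Nonempty (E →ₗᵢ[ℝ] C(X, F))

/-- Separately continuous nonexpansive actions of the monoid `S` on `K`, the unit acting as the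
identity (continuity in the second variable is automatic). -/
structure UnitalAction (S : Type u) [Monoid S] [TopologicalSpace S] {E : Type v}
    [NormedAddCommGroup E] (K : Set E) where
  /-- the action -/
  act : S → K → K
  one : ∀ x, act 1 x = x
  mul : ∀ s t x, act (s * t) x = act s (act t x)
  nonexpansive : ∀ s x y, ‖(act s x : E) - act s y‖ ≤ ‖(x : E) - y‖
  cont : ∀ x, Continuous fun s => act s x

/-- Monoids in which every element is invertible up to closure: all groups, and all dense submonoids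
of topological groups. -/
def TopologicallyInvertible (S : Type u) [Monoid S] [TopologicalSpace S] : Prop :=
  ∀ s : S, 1 ∈ closure (range fun t => t * s) ∧ 1 ∈ closure (range fun t => s * t)

lemma weaklyCompact_iff {𝕜 : Type w} {E : Type v} [RCLike 𝕜] [NormedAddCommGroup E]
    [NormedSpace ℝ E] [NormedSpace 𝕜 E] [IsScalarTower ℝ 𝕜 E] (K : Set E) :
    WeaklyCompact 𝕜 E K ↔ LRFix.WeaklyCompact K := by
  have hto : Continuous fun x : WeakSpace 𝕜 E => toWeakSpace ℝ E ((toWeakSpace 𝕜 E).symm x) := by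
    apply WeakBilin.continuous_of_continuous_eval
    intro f
    have h1 : Continuous fun x : WeakSpace 𝕜 E =>
        RCLike.re ((StrongDual.extendRCLike (𝕜 := 𝕜) f) ((toWeakSpace 𝕜 E).symm x)) :=
      RCLike.continuous_re.comp (WeakBilin.eval_continuous (topDualPairing 𝕜 E).flip
        (StrongDual.extendRCLike (𝕜 := 𝕜) f))
    refine h1.congr fun x => ?_
    rw [StrongDual.re_extendRCLike_apply]
    rfl
  have hfrom : Continuous fun x : WeakSpace ℝ E => toWeakSpace 𝕜 E ((toWeakSpace ℝ E).symm x) := by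
    apply WeakBilin.continuous_of_continuous_eval
    intro F
    have h1 : Continuous fun x : WeakSpace ℝ E =>
        RCLike.re (F ((toWeakSpace ℝ E).symm x)) :=
      WeakBilin.eval_continuous (topDualPairing ℝ E).flip
        (RCLike.reCLM.comp (F.restrictScalars ℝ))
    have h2 : Continuous fun x : WeakSpace ℝ E =>
        RCLike.im (F ((toWeakSpace ℝ E).symm x)) :=
      WeakBilin.eval_continuous (topDualPairing ℝ E).flip
        (RCLike.imCLM.comp (F.restrictScalars ℝ))
    have h3 : Continuous fun x : WeakSpace ℝ E =>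
        ((RCLike.re (F ((toWeakSpace ℝ E).symm x)) : ℝ) : 𝕜) +
          ((RCLike.im (F ((toWeakSpace ℝ E).symm x)) : ℝ) : 𝕜) * RCLike.I :=
      (RCLike.continuous_ofReal.comp h1).add
        ((RCLike.continuous_ofReal.comp h2).mul continuous_const)
    refine h3.congr fun x => ?_
    rw [RCLike.re_add_im]
    rfl
  constructor
  · intro h
    have h1 := h.image hto
    rw [image_image] at h1
    simpa [LRFix.WeaklyCompact] using h1
  · intro h
    have h1 := h.image hfrom
    rw [image_image] at h1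
    simpa [WeaklyCompact] using h1

lemma weaklyCompact_of_reflexive {𝕜 : Type w} {E : Type v} [RCLike 𝕜] [NormedAddCommGroup E]
    [NormedSpace ℝ E] [NormedSpace 𝕜 E] [IsScalarTower ℝ 𝕜 E]
    (h : Function.Surjective (NormedSpace.inclusionInDoubleDual 𝕜 E)) {C : Set E}
    (hcl : IsClosed C) (hb : Bornology.IsBounded C) (hconv : Convex ℝ C) :
    WeaklyCompact 𝕜 E C := by
  have hS : closure (toWeakSpace 𝕜 E '' C) = toWeakSpace 𝕜 E '' C := by
    have h1 := hconv.toWeakSpace_closure (𝕜 := 𝕜)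
    rw [hcl.closure_eq] at h1
    exact h1.symm
  have hpre : (toWeakSpace 𝕜 E) ⁻¹' (toWeakSpace 𝕜 E '' C) = C :=
    Set.preimage_image_eq C (toWeakSpace 𝕜 E).injective
  have hrange : Set.range (NormedSpace.inclusionInDoubleDualWeak 𝕜 E) = Set.univ := by
    rw [Set.eq_univ_iff_forall]
    intro f
    obtain ⟨x, hx⟩ := h (WeakDual.toStrongDual f)
    refine ⟨toWeakSpace 𝕜 E x, ?_⟩
    apply WeakDual.toStrongDual.injective
    rw [← hx]
    ext φ
    rfl
  have h2 := NormedSpace.isCompact_closure_of_isBounded 𝕜 E (toWeakSpace 𝕜 E '' C)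
    (by rw [hpre]; exact hb) (by rw [hrange]; exact Set.subset_univ _)
  rw [hS] at h2
  exact h2

/-- On every closed invariant subset the maps of such an action are surjective isometries. -/
lemma exists_isometryEquiv {E : Type v} [NormedAddCommGroup E] [CompleteSpace E] {S : Type u}
    [Monoid S] [TopologicalSpace S] (hS : TopologicallyInvertible S) {K : Set E}
    (A : UnitalAction S K) {C : Set E} (hCK : C ⊆ K) (hcl : IsClosed C)
    (hinv : ∀ (s : S) (x : K), (x : E) ∈ C → (A.act s x : E) ∈ C) (s : S) :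
    ∃ T : C ≃ᵢ C, ∀ x : C, (T x : E) = A.act s ⟨x, hCK x.2⟩ := by
  have hcomp : CompleteSpace C := hcl.completeSpace_coe
  let T : C → C := fun y => ⟨A.act s ⟨y, hCK y.2⟩, hinv s _ y.2⟩
  have hcv : ∀ y : K, Continuous fun t => (A.act t y : E) := fun y =>
    continuous_subtype_val.comp (A.cont y)
  have hT : Isometry T := by
    refine Isometry.of_dist_eq fun y z => ?_
    rw [Subtype.dist_eq, Subtype.dist_eq, dist_eq_norm, dist_eq_norm]
    refine le_antisymm (A.nonexpansive s ⟨y, hCK y.2⟩ ⟨z, hCK z.2⟩) ?_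
    -- the reverse inequality holds for all `t * s` and so in the limit
    have h1 : range (fun t => t * s) ⊆
        {t : S | ‖(A.act t ⟨y, hCK y.2⟩ : E) - A.act t ⟨z, hCK z.2⟩‖ ≤
          ‖(A.act s ⟨y, hCK y.2⟩ : E) - A.act s ⟨z, hCK z.2⟩‖} := by
      rintro _ ⟨t, rfl⟩
      change ‖(A.act (t * s) ⟨y, hCK y.2⟩ : E) - A.act (t * s) ⟨z, hCK z.2⟩‖ ≤ _
      rw [A.mul, A.mul]
      exact A.nonexpansive t _ _
    have h2 : IsClosed {t : S | ‖(A.act t ⟨y, hCK y.2⟩ : E) - A.act t ⟨z, hCK z.2⟩‖ ≤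
          ‖(A.act s ⟨y, hCK y.2⟩ : E) - A.act s ⟨z, hCK z.2⟩‖} :=
      isClosed_le (((hcv _).sub (hcv _)).norm) continuous_const
    have h3 := closure_minimal h1 h2 (hS s).1
    change ‖(A.act 1 ⟨y, hCK y.2⟩ : E) - A.act 1 ⟨z, hCK z.2⟩‖ ≤ _ at h3
    rw [A.one, A.one] at h3
    exact h3
  have hsurj : Function.Surjective T := by
    have hclr : IsClosed (range T) := hT.isClosedEmbedding.isClosed_range
    intro y
    have h1 : range (fun t => s * t) ⊆
        {t : S | (⟨A.act t ⟨y, hCK y.2⟩, hinv t _ y.2⟩ : C) ∈ range T} := by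
      rintro _ ⟨t, rfl⟩
      refine ⟨⟨A.act t ⟨y, hCK y.2⟩, hinv t _ y.2⟩, ?_⟩
      apply Subtype.ext
      change (A.act s (A.act t ⟨y, hCK y.2⟩) : E) = A.act (s * t) ⟨y, hCK y.2⟩
      rw [A.mul]
    have h2 : IsClosed {t : S | (⟨A.act t ⟨y, hCK y.2⟩, hinv t _ y.2⟩ : C) ∈ range T} :=
      hclr.preimage (Continuous.subtype_mk (hcv _) _)
    have h3 := closure_minimal h1 h2 (hS s).2
    change (⟨A.act 1 ⟨y, hCK y.2⟩, hinv 1 _ y.2⟩ : C) ∈ range T at h3
    have h4 : (⟨A.act 1 ⟨y, hCK y.2⟩, hinv 1 _ y.2⟩ : C) = y := by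
      apply Subtype.ext
      change (A.act 1 ⟨y, hCK y.2⟩ : E) = y
      rw [A.one]
    rw [h4] at h3
    exact h3
  exact ⟨IsometryEquiv.mk (Equiv.ofBijective T ⟨hT.injective, hsurj⟩) hT, fun x => rfl⟩

/-- In the three classes of spaces all surjective isometries of bounded convex sets are affine. -/
lemma isAff {𝕜 : Type w} {E : Type v} [RCLike 𝕜] [NormedAddCommGroup E] [NormedSpace ℝ E]
    [NormedSpace 𝕜 E] [IsScalarTower ℝ 𝕜 E]
    (hE : RNP E ∨ Function.Surjective (NormedSpace.inclusionInDoubleDual 𝕜 E) ∨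
      ScatteredType.{v, x, y} E) {C : Set E} (hconv : Convex ℝ C) (hb : Bornology.IsBounded C)
    (T : C ≃ᵢ C) : RNP45.IsAff C T := by
  rcases hE with hE | hE | hE
  · exact RNP45.affine_of_rnp hE hconv T
  · have hE' : RNP45.RNP E := by
      intro C hne hcl hb hconv
      exact RNP45.dentable_of_weaklyCompact
        ((weaklyCompact_iff C).1 (weaklyCompact_of_reflexive hE hcl hb hconv)) hne hconv
    exact RNP45.affine_of_rnp hE' hconv T
  · obtain ⟨X, _, _, F, _, _, _, hX, ⟨J⟩⟩ := hE
    exact RNP45.isAff_of_scattered hX J hconv hb T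

/-- The maps of such an action are surjective isometries, and so affine. -/
lemma affine_act {E : Type v} [NormedAddCommGroup E] [NormedSpace ℝ E] [CompleteSpace E]
    {S : Type u} [Monoid S] [TopologicalSpace S] (hS : TopologicallyInvertible S) {K : Set E}
    (hK : LRFix.WeaklyCompact K) (haff : ∀ T : K ≃ᵢ K, RNP45.IsAff K T) (A : UnitalAction S K)
    (s : S) (x y z : K) (t : ℝ) (ht0 : 0 ≤ t) (ht1 : t ≤ 1)
    (hz : (z : E) = (1 - t) • (x : E) + t • (y : E)) :
    (A.act s z : E) = (1 - t) • (A.act s x : E) + t • (A.act s y : E) := by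
  obtain ⟨T, hT⟩ := exists_isometryEquiv hS A (C := K) Subset.rfl hK.isClosed
    (fun s x _ => (A.act s x).2) s
  have h1 := haff T x y z t ht0 ht1 hz
  rw [hT x, hT y, hT z] at h1
  exact h1

theorem result : ∀ (𝕜 : Type w) [RCLike 𝕜] (E : Type v) [NormedAddCommGroup E] [NormedSpace ℝ E]
    [NormedSpace 𝕜 E] [IsScalarTower ℝ 𝕜 E] [CompleteSpace E],
    (RNP E ∨ Function.Surjective (NormedSpace.inclusionInDoubleDual 𝕜 E) ∨
      ScatteredType.{v, x, y} E) →
    ∀ (S : Type u) [Monoid S] [TopologicalSpace S], TopologicallyInvertible S →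
    ∀ K : Set E, K.Nonempty → Convex ℝ K → WeaklyCompact 𝕜 E K → ∀ A : UnitalAction S K,
      (∀ (s : S) (x y z : K) (t : ℝ), 0 ≤ t → t ≤ 1 →
        (z : E) = (1 - t) • (x : E) + t • (y : E) →
          (A.act s z : E) = (1 - t) • (A.act s x : E) + t • (A.act s y : E)) ∧
      ∃ r : K → K, (∀ x y : K, ‖(r x : E) - r y‖ ≤ ‖(x : E) - y‖) ∧
        (∀ s x, A.act s (r x) = r x) ∧ ∀ x, (∀ s, A.act s x = x) → r x = x := by
  classical
  intro 𝕜 _ E _ _ _ _ _ hE S _ _ hS K hne hconv hK A
  have hKw : LRFix.WeaklyCompact K := (weaklyCompact_iff K).1 hK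
  have hKb := RNP45.weaklyCompact_isBounded hKw
  refine ⟨affine_act hS hKw (fun T => isAff hE hconv hKb T) A, ?_⟩
  let f : S → E → E := fun s x => if hx : x ∈ K then (A.act s ⟨x, hx⟩ : E) else x
  have hf : ∀ s (x : K), f s x = A.act s x := by
    intro s x
    simp only [f, dif_pos x.2]
  obtain ⟨r, hr⟩ := Bruck.exists_retr hKw hconv (range f) (by
    rintro _ ⟨s, rfl⟩
    constructor
    · intro x hx
      rw [hf s ⟨x, hx⟩]
      exact (A.act s ⟨x, hx⟩).2
    · intro x hx y hy
      rw [hf s ⟨x, hx⟩, hf s ⟨y, hy⟩]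
      exact A.nonexpansive s ⟨x, hx⟩ ⟨y, hy⟩) (by
    intro C hCK hCne hCcl hCconv hinv
    have hinv' : ∀ (s : S) (x : K), (x : E) ∈ C → (A.act s x : E) ∈ C := by
      intro s x hx
      rw [← hf s x]
      exact hinv _ ⟨s, rfl⟩ x hx
    obtain ⟨x, hx⟩ := RNP45.fixed_of_isAff (hKw.mono hCK hCcl hCconv) hCne hCconv
      fun T => isAff hE hCconv (hKb.subset hCK) T
    refine ⟨x, x.2, ?_⟩
    rintro _ ⟨s, rfl⟩
    obtain ⟨T, hT⟩ := exists_isometryEquiv hS A hCK hCcl hinv' s
    have h1 := hT x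
    rw [hx T] at h1
    rw [hf s ⟨x, hCK x.2⟩]
    exact h1.symm)
  refine ⟨fun x => ⟨r x, (hr.mem x x.2).1⟩, ?_, ?_, ?_⟩
  · intro x y
    exact hr.toNE.ne x x.2 y y.2
  · intro s x
    apply Subtype.ext
    have h1 := (hr.mem x x.2).2 _ ⟨s, rfl⟩
    rw [← hf s]
    exact h1
  · intro x hx
    apply Subtype.ext
    refine hr.fix x ⟨x.2, ?_⟩
    rintro _ ⟨s, rfl⟩
    rw [hf s x, hx s]

end Pool.Agent.Results.MP_0633b3_an.RadonNikodymGroups
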